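import Pool.Agent.Lib.MP_2dbb30_al.IT.Main

set_option autoImplicit false

open scoped Manifold ContDiff

namespace Pool.Agent.Results.MP_2dbb30_al.AnalyticClassification

open Pool.Agent.Lib.MP_2dbb30_al.TF Pool.Agent.Lib.MP_2dbb30_al.AN

/-- every nontrivial finitely generated closed subgroup of `G` is self-similar of index `p` -/
def Hereditary (p : ℕ) (G : Type*) [Group G] [TopologicalSpace G] [IsTopologicalGroup G] : Prop :=
  ∀ L : Subgroup G, L ≠ ⊥ →
    (∃ F : Finset G, (Subgroup.closure (F : Set G)).topologicalClosure = L) → SelfSimilar p L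

/-- `G` is topologically generated by the continuously embedded module `W` and by `y`, which
conjugates `W` by the linear map `T`, and either `G` is torsion-free and (A) `y ^ p` lies in `W`
and `T - 1` has rank less than `p`, or (B) `T` has infinite order and each `S = T ^ p ^ i` is a
scalar or satisfies `p = (S - 1) r(S)` for a polynomial `r`; or else (C) `y ^ p = 1` and
`1 + T + ... + T ^ (p - 1) = 0`. -/
def Shape (p : ℕ) {R W G : Type*} [CommRing R] [AddCommGroup W] [Module R W] [TopologicalSpace W]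
    [Group G] [TopologicalSpace G] [IsTopologicalGroup G]
    (j : Multiplicative W →* G) (T : Module.End R W) (y : G) : Prop :=
  Continuous j ∧ Function.Injective j ∧
    (∀ v, y * j (Multiplicative.ofAdd v) * y⁻¹ = j (Multiplicative.ofAdd (T v))) ∧
    (j.range ⊔ Subgroup.zpowers y).topologicalClosure = ⊤ ∧
    (((∀ g : G, IsOfFinOrder g → g = 1) ∧
      ((y ^ p ∈ j.range ∧ Module.finrank R (LinearMap.range (T - 1)) < p) ∨
        (¬ IsOfFinOrder T ∧ ∀ i : ℕ, (∃ c : R, T ^ p ^ i = c • (1 : Module.End R W)) ∨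
          ∃ r : Polynomial R,
            (p : Module.End R W) = (T ^ p ^ i - 1) * Polynomial.aeval (T ^ p ^ i) r))) ∨
      (y ^ p = 1 ∧ ∑ i ∈ Finset.range p, T ^ i = 0))

/-- The infinite finitely generated pro-`p` groups that are strongly hereditarily self-similar of
index `p` and `p`-adic analytic form an explicit list. -/
theorem result (p : ℕ) [Fact p.Prime] (G : Type*) [Group G] [TopologicalSpace G]
    [IsTopologicalGroup G] [CompactSpace G] [T2Space G] [TotallyDisconnectedSpace G] [Infinite G]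
    (hp : ∀ N : Subgroup G, N.Normal → IsOpen (N : Set G) → ∃ k : ℕ, N.index = p ^ k)
    (hfg : ∃ F : Finset G, (Subgroup.closure (F : Set G)).topologicalClosure = ⊤) :
    (Hereditary p G ∧ ∃ (n : ℕ) (_ : ChartedSpace (Fin n → ℚ_[p]) G),
        LieGroup 𝓘(ℚ_[p], Fin n → ℚ_[p]) ω G) ↔
      ∃ (d : ℕ) (j : Multiplicative (Fin d → ℤ_[p]) →* G)
        (T : Module.End ℤ_[p] (Fin d → ℤ_[p])) (y : G), Shape p j T y := by
  constructor
  · rintro ⟨hss, hL⟩
    have := solvable_of_lie' hp hss hL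
    by_cases htf : ∀ g : G, IsOfFinOrder g → g = 1
    · obtain ⟨d, j, T, y, h1, h2, h3, h4, h5⟩ := (classification hp hfg htf).1 hss
      exact ⟨d, j, T, y, h1, h2, h3, h4, Or.inl ⟨htf, h5⟩⟩
    · push Not at htf
      obtain ⟨c, hc, hc1⟩ := htf
      obtain ⟨h2, h3⟩ := Pool.Agent.Lib.MP_2dbb30_al.IT.hve_of_ss hp hss
      rcases Pool.Agent.Lib.MP_2dbb30_al.IT.torsion_case hp hfg h2 h3 hc hc1 with
        ⟨k, hk, h⟩ | ⟨d, j, T, y, h1, h2, h3, h4, h5⟩
      · exact absurd hL (Pool.Agent.Lib.MP_2dbb30_al.LL.lamp_not_analytic hk h)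
      · exact ⟨d, j, T, y, h1, h2, h3, h4, Or.inr h5⟩
  · rintro ⟨d, j, T, y, h1, h2, h3, h4, ⟨htf, h5⟩ | ⟨h5, h6⟩⟩
    · have : Group.IsSolvable G := by
        obtain ⟨σ, m, -, hdec⟩ := model_of_data hp j T y h1 h2 h3 h4
        exact solvable_of_gen m hp y hdec
      have hss := (classification hp hfg htf).2 ⟨d, j, T, y, h1, h2, h3, h4, h5⟩
      exact ⟨hss, main hp hfg htf (Pool.Agent.Lib.MP_2dbb30_al.IT.hve_of_ss hp hss).1⟩
    · exact Pool.Agent.Lib.MP_2dbb30_al.IT.caseC hp hfg j T y h1 h2 h3 h4 h5 h6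

end Pool.Agent.Results.MP_2dbb30_al.AnalyticClassification
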