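import Pool.Agent.Lib.MP_2dbb30_al.LL.Main
import Pool.Agent.Lib.MP_2dbb30_al.AN.Main

set_option autoImplicit false

open scoped Manifold ContDiff

namespace Pool.Agent.Results.MP_2dbb30_al.Witnesses

open Pool.Agent.Lib.MP_2dbb30_al.TF Pool.Agent.Lib.MP_2dbb30_al.LL

/-- every nontrivial finitely generated closed subgroup of `G` is self-similar of index `p` -/
def Hereditary (p : ℕ) (G : Type*) [Group G] [TopologicalSpace G] [IsTopologicalGroup G] : Prop :=
  ∀ L : Subgroup G, L ≠ ⊥ →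
    (∃ F : Finset G, (Subgroup.closure (F : Set G)).topologicalClosure = L) → SelfSimilar p L

/-- The finitely generated pro-`p` groups which are strongly hereditarily self-similar of index `p`
and not `p`-adic analytic are exactly the groups `𝔽_p[[X]]^k ⋊ ℤ_p`, `k ≥ 1`, and the strongly
hereditarily self-similar groups which are not solvable. -/
theorem result (p : ℕ) [Fact p.Prime] (G : Type*) [Group G] [TopologicalSpace G]
    [IsTopologicalGroup G] [CompactSpace G] [T2Space G] [TotallyDisconnectedSpace G]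
    (hp : ∀ N : Subgroup G, N.Normal → IsOpen (N : Set G) → ∃ e : ℕ, N.index = p ^ e)
    (hfg : ∃ F : Finset G, (Subgroup.closure (F : Set G)).topologicalClosure = ⊤) :
    (Hereditary p G ∧ ¬ ∃ (n : ℕ) (_ : ChartedSpace (Fin n → ℚ_[p]) G),
        LieGroup 𝓘(ℚ_[p], Fin n → ℚ_[p]) ω G) ↔
    (∃ k : ℕ, 0 < k ∧ Lamp p k G) ∨ (Hereditary p G ∧ ¬ Group.IsSolvable G) := by
  refine ⟨fun h => ?_, ?_⟩
  · by_cases hsol : Group.IsSolvable G
    · exact Or.inl ((Pool.Agent.Lib.MP_2dbb30_al.LL.main hp hfg).1 h)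
    · exact Or.inr ⟨h.1, hsol⟩
  · rintro (⟨k, hk, h⟩ | ⟨h, hsol⟩)
    · exact ⟨fun L h1 h2 => lamp_ss hp hk h L h1 h2, lamp_not_analytic hk h⟩
    · exact ⟨h, fun hL => hsol (Pool.Agent.Lib.MP_2dbb30_al.AN.solvable_of_lie' hp h hL)⟩

end Pool.Agent.Results.MP_2dbb30_al.Witnesses
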